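import Mathlib
import Pool.Agent.W621.ConeFan

/-!
For every cone `M` over a compact totally disconnected metric space (for instance over a compact
metric space with exactly one limit point: the harmonic fan; or over the Cantor set) the hyperspace
`C(M)` of subcontinua is a retract of the hyperspace `2^M` of nonempty closed subsets.

The retraction, in the planar model `{(s k, s) : s ∈ [0,1], k ∈ K}` with vertex `0`: if `A` contains
`0`, then `r(A)` is the union of the segments from `0` to the points of `A`. Otherwise let `a`, `b`
be the least and the greatest height of points of `A`, `k⁺` and `k⁻` the greatest and least slope,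
and `w = k⁺ - k⁻`. Let `α = max(a - 2w, 0)`, let `l` and `m` be the numbers `(2w - a)/a` and
`(2a - w)/a` cut off at `0` and `1`. Then
`r(A) = {(s k⁺, s) : α ≤ s ≤ m b} ∪ (α (k⁺, 1) + [0, l] A)`.
-/

set_option autoImplicit false

open Set Topology TopologicalSpace

namespace Pool.Agent.Results.MP_85483e_gt.ConeRetraction

/-- The equivalence relation on `Z × [0,1]` which identifies the points of `Z × {1}`. -/
def coneSetoid (Z : Type) : Setoid (Z × unitInterval) where
  r p q := p = q ∨ (p.2 = 1 ∧ q.2 = 1)
  iseqv := by
    refine ⟨fun p => Or.inl rfl, ?_, ?_⟩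
    · rintro p q (h | ⟨h1, h2⟩)
      · exact Or.inl h.symm
      · exact Or.inr ⟨h2, h1⟩
    · rintro p q u (h | ⟨h1, h2⟩) (h' | ⟨h1', h2'⟩)
      · exact Or.inl (h.trans h')
      · exact Or.inr ⟨h ▸ h1', h2'⟩
      · exact Or.inr ⟨h1, h' ▸ h2⟩
      · exact Or.inr ⟨h1, h2'⟩

/-- The cone over `Z`: the quotient of `Z × [0,1]` which collapses `Z × {1}` to a point, with the
quotient topology. -/
abbrev Cone (Z : Type) [TopologicalSpace Z] : Type := Quotient (coneSetoid Z)

/-- Let `Z` be a compact metric space which is totally disconnected, or which has exactly one limit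
point, and let `M` be a metric space homeomorphic to the cone over `Z`. Then there is a continuous
map from the hyperspace of nonempty compact subsets of `M` (Hausdorff metric) to the hyperspace of
subcontinua of `M` which is the identity on subcontinua. -/
theorem result (Z : Type) [MetricSpace Z] [CompactSpace Z]
    (hZ : TotallyDisconnectedSpace Z ∨ ∃! z : Z, AccPt z (Filter.principal univ))
    (M : Type) [MetricSpace M] (e : M ≃ₜ Cone Z) :
    ∃ r : NonemptyCompacts M → {A : NonemptyCompacts M // IsConnected (A : Set M)},
      Continuous r ∧ ∀ A : {A : NonemptyCompacts M // IsConnected (A : Set M)}, r A.1 = A := by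
  have : TotallyDisconnectedSpace Z := hZ.elim id Pool.Agent.W621.ConeFan.td_of_limit
  refine Pool.Agent.W621.ConeFan.exists_retraction_cone (Z := Z)
    (fun p => e.symm (Quotient.mk (coneSetoid Z) p))
    (e.symm.continuous.comp continuous_quotient_mk')
    (e.symm.surjective.comp Quotient.mk_surjective) ?_
  intro p q
  rw [e.symm.injective.eq_iff]
  exact Quotient.eq (r := coneSetoid Z)

end Pool.Agent.Results.MP_85483e_gt.ConeRetraction
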